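import Mathlib

set_option autoImplicit false

/-!
# Transfer operator of the digit automaton, five iterates in closed form
-/

namespace Pool.Agent.Q141.BaseR

open Finset

/-- one step of the automaton, digits `0, …, ρ`, states `0, …, ρ - 1` -/
def TT (ρ : ℕ) (H : ℕ → ℕ → ℚ) : ℕ → ℕ → ℚ := fun c w =>
  ∑ a ∈ range (c + 1), H a w + (∑ b ∈ range ρ, H b (w + 1) - ∑ b ∈ range c, H b (w + 1))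

/-- closed form of the iterate 0 -/
def g0 (R : ℚ) (F : ℕ → ℚ) (c : ℚ) (w : ℕ) : ℚ :=
  (1) * F w

/-- closed form of the iterate 1 -/
def g1 (R : ℚ) (F : ℕ → ℚ) (c : ℚ) (w : ℕ) : ℚ :=
  (1 * c + 1) * F w +
  (-1 * c + 1 * R) * F (w + 1)

/-- closed form of the iterate 2 -/
def g2 (R : ℚ) (F : ℕ → ℚ) (c : ℚ) (w : ℕ) : ℚ :=
  (1 / 2 * c ^ 2 + 3 / 2 * c + 1) * F w +
  (-1 * c ^ 2 + 1 * c * R - 1 * c + 1 / 2 * R ^ 2 + 3 / 2 * R) * F (w + 1) +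
  (1 / 2 * c ^ 2 - 1 * c * R - 1 / 2 * c + 1 / 2 * R ^ 2 + 1 / 2 * R) * F (w + 2)

/-- closed form of the iterate 3 -/
def g3 (R : ℚ) (F : ℕ → ℚ) (c : ℚ) (w : ℕ) : ℚ :=
  (1 / 6 * c ^ 3 + 1 * c ^ 2 + 11 / 6 * c + 1) * F w +
  (-1 / 2 * c ^ 3 + 1 / 2 * c ^ 2 * R - 3 / 2 * c ^ 2 + 1 / 2 * c * R ^ 2 + 2 * c * R - 1 * c + 1 / 6 * R ^ 3 + 1 * R ^ 2 + 11 / 6 * R) * F (w + 1) +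
  (1 / 2 * c ^ 3 - 1 * c ^ 2 * R - 1 * c * R - 1 / 2 * c + 2 / 3 * R ^ 3 + 3 / 2 * R ^ 2 + 5 / 6 * R) * F (w + 2) +
  (-1 / 6 * c ^ 3 + 1 / 2 * c ^ 2 * R + 1 / 2 * c ^ 2 - 1 / 2 * c * R ^ 2 - 1 * c * R - 1 / 3 * c + 1 / 6 * R ^ 3 + 1 / 2 * R ^ 2 + 1 / 3 * R) * F (w + 3)

/-- closed form of the iterate 4 -/
def g4 (R : ℚ) (F : ℕ → ℚ) (c : ℚ) (w : ℕ) : ℚ :=
  (1 / 24 * c ^ 4 + 5 / 12 * c ^ 3 + 35 / 24 * c ^ 2 + 25 / 12 * c + 1) * F w +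
  (-1 / 6 * c ^ 4 + 1 / 6 * c ^ 3 * R - 1 * c ^ 3 + 1 / 4 * c ^ 2 * R ^ 2 + 5 / 4 * c ^ 2 * R - 11 / 6 * c ^ 2 + 1 / 6 * c * R ^ 3 + 5 / 4 * c * R ^ 2 + 35 / 12 * c * R - 1 * c + 1 / 24 * R ^ 4 + 5 / 12 * R ^ 3 + 35 / 24 * R ^ 2 + 25 / 12 * R) * F (w + 1) +
  (1 / 4 * c ^ 4 - 1 / 2 * c ^ 3 * R + 1 / 2 * c ^ 3 - 1 / 4 * c ^ 2 * R ^ 2 - 7 / 4 * c ^ 2 * R - 1 / 4 * c ^ 2 + 1 / 2 * c * R ^ 3 + 3 / 4 * c * R ^ 2 - 3 / 4 * c * R - 1 / 2 * c + 11 / 24 * R ^ 4 + 23 / 12 * R ^ 3 + 61 / 24 * R ^ 2 + 13 / 12 * R) * F (w + 2) +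
  (-1 / 6 * c ^ 4 + 1 / 2 * c ^ 3 * R + 1 / 3 * c ^ 3 - 1 / 4 * c ^ 2 * R ^ 2 - 1 / 4 * c ^ 2 * R + 1 / 6 * c ^ 2 - 1 / 2 * c * R ^ 3 - 5 / 4 * c * R ^ 2 - 5 / 4 * c * R - 1 / 3 * c + 11 / 24 * R ^ 4 + 17 / 12 * R ^ 3 + 37 / 24 * R ^ 2 + 7 / 12 * R) * F (w + 3) +
  (1 / 24 * c ^ 4 - 1 / 6 * c ^ 3 * R - 1 / 4 * c ^ 3 + 1 / 4 * c ^ 2 * R ^ 2 + 3 / 4 * c ^ 2 * R + 11 / 24 * c ^ 2 - 1 / 6 * c * R ^ 3 - 3 / 4 * c * R ^ 2 - 11 / 12 * c * R - 1 / 4 * c + 1 / 24 * R ^ 4 + 1 / 4 * R ^ 3 + 11 / 24 * R ^ 2 + 1 / 4 * R) * F (w + 4)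

/-- closed form of the iterate 5 -/
def g5 (R : ℚ) (F : ℕ → ℚ) (c : ℚ) (w : ℕ) : ℚ :=
  (1 / 120 * c ^ 5 + 1 / 8 * c ^ 4 + 17 / 24 * c ^ 3 + 15 / 8 * c ^ 2 + 137 / 60 * c + 1) * F w +
  (-1 / 24 * c ^ 5 + 1 / 24 * c ^ 4 * R - 5 / 12 * c ^ 4 + 1 / 12 * c ^ 3 * R ^ 2 + 1 / 2 * c ^ 3 * R - 35 / 24 * c ^ 3 + 1 / 12 * c ^ 2 * R ^ 3 + 3 / 4 * c ^ 2 * R ^ 2 + 17 / 8 * c ^ 2 * R - 25 / 12 * c ^ 2 + 1 / 24 * c * R ^ 4 + 1 / 2 * c * R ^ 3 + 17 / 8 * c * R ^ 2 + 15 / 4 * c * R - 1 * c + 1 / 120 * R ^ 5 + 1 / 8 * R ^ 4 + 17 / 24 * R ^ 3 + 15 / 8 * R ^ 2 + 137 / 60 * R) * F (w + 1) +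
  (1 / 12 * c ^ 5 - 1 / 6 * c ^ 4 * R + 5 / 12 * c ^ 4 - 1 / 6 * c ^ 3 * R ^ 2 - 7 / 6 * c ^ 3 * R + 5 / 12 * c ^ 3 + 1 / 6 * c ^ 2 * R ^ 3 - 1 / 4 * c ^ 2 * R ^ 2 - 9 / 4 * c ^ 2 * R - 5 / 12 * c ^ 2 + 5 / 12 * c * R ^ 4 + 11 / 6 * c * R ^ 3 + 2 * c * R ^ 2 - 5 / 12 * c * R - 1 / 2 * c + 13 / 60 * R ^ 5 + 35 / 24 * R ^ 4 + 7 / 2 * R ^ 3 + 85 / 24 * R ^ 2 + 77 / 60 * R) * F (w + 2) +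
  (-1 / 12 * c ^ 5 + 1 / 4 * c ^ 4 * R + 1 / 2 * c ^ 3 * R + 5 / 12 * c ^ 3 - 1 / 2 * c ^ 2 * R ^ 3 - 5 / 4 * c ^ 2 * R ^ 2 - 1 * c ^ 2 * R - 1 / 2 * c * R ^ 3 - 5 / 4 * c * R ^ 2 - 5 / 4 * c * R - 1 / 3 * c + 11 / 20 * R ^ 5 + 55 / 24 * R ^ 4 + 11 / 3 * R ^ 3 + 65 / 24 * R ^ 2 + 47 / 60 * R) * F (w + 3) +
  (1 / 24 * c ^ 5 - 1 / 6 * c ^ 4 * R - 5 / 24 * c ^ 4 + 1 / 6 * c ^ 3 * R ^ 2 + 1 / 2 * c ^ 3 * R + 5 / 24 * c ^ 3 + 1 / 6 * c ^ 2 * R ^ 3 + 1 / 4 * c ^ 2 * R ^ 2 + 1 / 4 * c ^ 2 * R + 5 / 24 * c ^ 2 - 5 / 12 * c * R ^ 4 - 3 / 2 * c * R ^ 3 - 2 * c * R ^ 2 - 5 / 4 * c * R - 1 / 4 * c + 13 / 60 * R ^ 5 + 25 / 24 * R ^ 4 + 11 / 6 * R ^ 3 + 35 / 24 * R ^ 2 + 9 / 20 * R) * F (w + 4) +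
  (-1 / 120 * c ^ 5 + 1 / 24 * c ^ 4 * R + 1 / 12 * c ^ 4 - 1 / 12 * c ^ 3 * R ^ 2 - 1 / 3 * c ^ 3 * R - 7 / 24 * c ^ 3 + 1 / 12 * c ^ 2 * R ^ 3 + 1 / 2 * c ^ 2 * R ^ 2 + 7 / 8 * c ^ 2 * R + 5 / 12 * c ^ 2 - 1 / 24 * c * R ^ 4 - 1 / 3 * c * R ^ 3 - 7 / 8 * c * R ^ 2 - 5 / 6 * c * R - 1 / 5 * c + 1 / 120 * R ^ 5 + 1 / 12 * R ^ 4 + 7 / 24 * R ^ 3 + 5 / 12 * R ^ 2 + 1 / 5 * R) * F (w + 5)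

/-- partial sums of `g0` -/
def a0 (R : ℚ) (F : ℕ → ℚ) (c : ℚ) (w : ℕ) : ℚ :=
  (1 * c) * F w

/-- partial sums of `g1` -/
def a1 (R : ℚ) (F : ℕ → ℚ) (c : ℚ) (w : ℕ) : ℚ :=
  (1 / 2 * c ^ 2 + 1 / 2 * c) * F w +
  (-1 / 2 * c ^ 2 + 1 * c * R + 1 / 2 * c) * F (w + 1)

/-- partial sums of `g2` -/
def a2 (R : ℚ) (F : ℕ → ℚ) (c : ℚ) (w : ℕ) : ℚ :=
  (1 / 6 * c ^ 3 + 1 / 2 * c ^ 2 + 1 / 3 * c) * F w +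
  (-1 / 3 * c ^ 3 + 1 / 2 * c ^ 2 * R + 1 / 2 * c * R ^ 2 + 1 * c * R + 1 / 3 * c) * F (w + 1) +
  (1 / 6 * c ^ 3 - 1 / 2 * c ^ 2 * R - 1 / 2 * c ^ 2 + 1 / 2 * c * R ^ 2 + 1 * c * R + 1 / 3 * c) * F (w + 2)

/-- partial sums of `g3` -/
def a3 (R : ℚ) (F : ℕ → ℚ) (c : ℚ) (w : ℕ) : ℚ :=
  (1 / 24 * c ^ 4 + 1 / 4 * c ^ 3 + 11 / 24 * c ^ 2 + 1 / 4 * c) * F w +
  (-1 / 8 * c ^ 4 + 1 / 6 * c ^ 3 * R - 1 / 4 * c ^ 3 + 1 / 4 * c ^ 2 * R ^ 2 + 3 / 4 * c ^ 2 * R + 1 / 8 * c ^ 2 + 1 / 6 * c * R ^ 3 + 3 / 4 * c * R ^ 2 + 11 / 12 * c * R + 1 / 4 * c) * F (w + 1) +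
  (1 / 8 * c ^ 4 - 1 / 3 * c ^ 3 * R - 1 / 4 * c ^ 3 - 1 / 8 * c ^ 2 + 2 / 3 * c * R ^ 3 + 3 / 2 * c * R ^ 2 + 7 / 6 * c * R + 1 / 4 * c) * F (w + 2) +
  (-1 / 24 * c ^ 4 + 1 / 6 * c ^ 3 * R + 1 / 4 * c ^ 3 - 1 / 4 * c ^ 2 * R ^ 2 - 3 / 4 * c ^ 2 * R - 11 / 24 * c ^ 2 + 1 / 6 * c * R ^ 3 + 3 / 4 * c * R ^ 2 + 11 / 12 * c * R + 1 / 4 * c) * F (w + 3)

/-- partial sums of `g4` -/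
def a4 (R : ℚ) (F : ℕ → ℚ) (c : ℚ) (w : ℕ) : ℚ :=
  (1 / 120 * c ^ 5 + 1 / 12 * c ^ 4 + 7 / 24 * c ^ 3 + 5 / 12 * c ^ 2 + 1 / 5 * c) * F w +
  (-1 / 30 * c ^ 5 + 1 / 24 * c ^ 4 * R - 1 / 6 * c ^ 4 + 1 / 12 * c ^ 3 * R ^ 2 + 1 / 3 * c ^ 3 * R - 1 / 6 * c ^ 3 + 1 / 12 * c ^ 2 * R ^ 3 + 1 / 2 * c ^ 2 * R ^ 2 + 7 / 8 * c ^ 2 * R + 1 / 6 * c ^ 2 + 1 / 24 * c * R ^ 4 + 1 / 3 * c * R ^ 3 + 7 / 8 * c * R ^ 2 + 5 / 6 * c * R + 1 / 5 * c) * F (w + 1) +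
  (1 / 20 * c ^ 5 - 1 / 8 * c ^ 4 * R - 1 / 12 * c ^ 3 * R ^ 2 - 1 / 3 * c ^ 3 * R - 1 / 4 * c ^ 3 + 1 / 4 * c ^ 2 * R ^ 3 + 1 / 2 * c ^ 2 * R ^ 2 + 3 / 8 * c ^ 2 * R + 11 / 24 * c * R ^ 4 + 5 / 3 * c * R ^ 3 + 17 / 8 * c * R ^ 2 + 7 / 6 * c * R + 1 / 5 * c) * F (w + 2) +
  (-1 / 30 * c ^ 5 + 1 / 8 * c ^ 4 * R + 1 / 6 * c ^ 4 - 1 / 12 * c ^ 3 * R ^ 2 - 1 / 3 * c ^ 3 * R - 1 / 6 * c ^ 3 - 1 / 4 * c ^ 2 * R ^ 3 - 1 / 2 * c ^ 2 * R ^ 2 - 3 / 8 * c ^ 2 * R - 1 / 6 * c ^ 2 + 11 / 24 * c * R ^ 4 + 5 / 3 * c * R ^ 3 + 17 / 8 * c * R ^ 2 + 7 / 6 * c * R + 1 / 5 * c) * F (w + 3) +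
  (1 / 120 * c ^ 5 - 1 / 24 * c ^ 4 * R - 1 / 12 * c ^ 4 + 1 / 12 * c ^ 3 * R ^ 2 + 1 / 3 * c ^ 3 * R + 7 / 24 * c ^ 3 - 1 / 12 * c ^ 2 * R ^ 3 - 1 / 2 * c ^ 2 * R ^ 2 - 7 / 8 * c ^ 2 * R - 5 / 12 * c ^ 2 + 1 / 24 * c * R ^ 4 + 1 / 3 * c * R ^ 3 + 7 / 8 * c * R ^ 2 + 5 / 6 * c * R + 1 / 5 * c) * F (w + 4)

lemma sum_g0 (R : ℚ) (F : ℕ → ℚ) (w n : ℕ) : ∑ c ∈ range n, g0 R F c w = a0 R F n w := by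
  induction n with
  | zero => simp [a0]
  | succ n ih => rw [sum_range_succ, ih]; simp only [a0, g0]; push_cast; ring

lemma sum_g1 (R : ℚ) (F : ℕ → ℚ) (w n : ℕ) : ∑ c ∈ range n, g1 R F c w = a1 R F n w := by
  induction n with
  | zero => simp [a1]
  | succ n ih => rw [sum_range_succ, ih]; simp only [a1, g1]; push_cast; ring

lemma sum_g2 (R : ℚ) (F : ℕ → ℚ) (w n : ℕ) : ∑ c ∈ range n, g2 R F c w = a2 R F n w := by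
  induction n with
  | zero => simp [a2]
  | succ n ih => rw [sum_range_succ, ih]; simp only [a2, g2]; push_cast; ring

lemma sum_g3 (R : ℚ) (F : ℕ → ℚ) (w n : ℕ) : ∑ c ∈ range n, g3 R F c w = a3 R F n w := by
  induction n with
  | zero => simp [a3]
  | succ n ih => rw [sum_range_succ, ih]; simp only [a3, g3]; push_cast; ring

lemma sum_g4 (R : ℚ) (F : ℕ → ℚ) (w n : ℕ) : ∑ c ∈ range n, g4 R F c w = a4 R F n w := by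
  induction n with
  | zero => simp [a4]
  | succ n ih => rw [sum_range_succ, ih]; simp only [a4, g4]; push_cast; ring

lemma step_g0 (ρ : ℕ) (F : ℕ → ℚ) : TT ρ (fun c w => g0 ρ F c w) = fun (c w : ℕ) => g1 ρ F c w := by
  funext c w
  unfold TT
  rw [sum_g0, sum_g0, sum_g0]
  simp only [a0, g1, add_assoc, Nat.reduceAdd]
  push_cast
  ring

lemma step_g1 (ρ : ℕ) (F : ℕ → ℚ) : TT ρ (fun c w => g1 ρ F c w) = fun (c w : ℕ) => g2 ρ F c w := by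
  funext c w
  unfold TT
  rw [sum_g1, sum_g1, sum_g1]
  simp only [a1, g2, add_assoc, Nat.reduceAdd]
  push_cast
  ring

lemma step_g2 (ρ : ℕ) (F : ℕ → ℚ) : TT ρ (fun c w => g2 ρ F c w) = fun (c w : ℕ) => g3 ρ F c w := by
  funext c w
  unfold TT
  rw [sum_g2, sum_g2, sum_g2]
  simp only [a2, g3, add_assoc, Nat.reduceAdd]
  push_cast
  ring

lemma step_g3 (ρ : ℕ) (F : ℕ → ℚ) : TT ρ (fun c w => g3 ρ F c w) = fun (c w : ℕ) => g4 ρ F c w := by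
  funext c w
  unfold TT
  rw [sum_g3, sum_g3, sum_g3]
  simp only [a3, g4, add_assoc, Nat.reduceAdd]
  push_cast
  ring

lemma step_g4 (ρ : ℕ) (F : ℕ → ℚ) : TT ρ (fun c w => g4 ρ F c w) = fun (c w : ℕ) => g5 ρ F c w := by
  funext c w
  unfold TT
  rw [sum_g4, sum_g4, sum_g4]
  simp only [a4, g5, add_assoc, Nat.reduceAdd]
  push_cast
  ring

end Pool.Agent.Q141.BaseR
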